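import Mathlib

/-!
# Spaces of embedded closed polygons with fixed side lengths: a non-contractible component

For the side lengths `ℓ = (24, 3, 4, 3, 24, 145, 145)` the complement of the self-intersecting
configurations in the polygon space `M_ℓ` has a connected component that is not contractible.

Idea. The sides number 1, 2, 3 are short, the sides 0 and 4 are long needles. The set `K` of
embedded polygons for which the needles pierce the opposite faces of the tetrahedron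
`p_1 p_2 p_3 p_4` in a knotted way is open (strict polynomial inequalities) and closed in the
complement of `X` (compactness, and a planar lemma excluding degenerate tetrahedra). On `K` neither
`p_1` nor `p_6` lies on the line `p_0 p_5`, so that the dihedral angle at the axis `p_0 p_5`
between `p_1` and `p_6` is a continuous map to the circle. It has degree one on the loop obtained
by rotating the far away vertex `p_6` about this axis.
-/

set_option autoImplicit false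
set_option maxHeartbeats 4000000

namespace Pool.Agent.Results.MP_e82153_gt.Knotted


abbrev E3 := EuclideanSpace ℝ (Fin 3)

/-- The tuples `(u_1, …, u_n)` of unit vectors with `∑ ℓ_i u_i = 0`. -/
abbrev ClosedTuple {n : ℕ} (ℓ : Fin n → ℝ) : Type :=
  {u : Fin n → E3 // (∀ i, ‖u i‖ = 1) ∧ ∑ i, ℓ i • u i = 0}

/-- Two tuples are identified when a rotation (a linear isometry of determinant one) carries the
first to the second. -/
def rotSetoid {n : ℕ} (ℓ : Fin n → ℝ) : Setoid (ClosedTuple ℓ) where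
  r u v := ∃ g : E3 ≃ₗᵢ[ℝ] E3,
    LinearMap.det (g.toLinearEquiv : E3 →ₗ[ℝ] E3) = 1 ∧ ∀ i, v.1 i = g (u.1 i)
  iseqv :=
    { refl := fun u => ⟨LinearIsometryEquiv.refl ℝ E3, by
        have : ((LinearIsometryEquiv.refl ℝ E3).toLinearEquiv : E3 →ₗ[ℝ] E3) = LinearMap.id := rfl
        rw [this, LinearMap.det_id], fun i => rfl⟩
      symm := by
        rintro u v ⟨g, hg, h⟩
        refine ⟨g.symm, ?_, fun i => by rw [h i, g.symm_apply_apply]⟩
        have h1 : (g.symm.toLinearEquiv : E3 →ₗ[ℝ] E3) ∘ₗ (g.toLinearEquiv : E3 →ₗ[ℝ] E3)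
            = LinearMap.id := by
          ext x
          simp
        have h2 := congrArg LinearMap.det h1
        rw [LinearMap.det_comp, hg, mul_one, LinearMap.det_id] at h2
        exact h2
      trans := by
        rintro u v w ⟨g, hg, h⟩ ⟨g', hg', h'⟩
        refine ⟨g.trans g', ?_, fun i => by rw [h' i, h i]; rfl⟩
        have : ((g.trans g').toLinearEquiv : E3 →ₗ[ℝ] E3)
            = (g'.toLinearEquiv : E3 →ₗ[ℝ] E3) ∘ₗ (g.toLinearEquiv : E3 →ₗ[ℝ] E3) := rfl
        rw [this, LinearMap.det_comp, hg, hg', mul_one] }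

/-- The polygon space `M_ℓ`, with the quotient topology. -/
abbrev PolygonSpace {n : ℕ} (ℓ : Fin n → ℝ) : Type := Quotient (rotSetoid ℓ)

/-- The vertex `p_k = ∑_{i < k} ℓ_i u_i` (with sides numbered `0, …, n-1`). -/
def vertex {n : ℕ} (ℓ : Fin n → ℝ) (u : Fin n → E3) (k : ℕ) : E3 :=
  ∑ i ∈ Finset.univ.filter (fun i : Fin n => (i : ℕ) < k), ℓ i • u i

/-- The side number `i`, from `p_i` to `p_{i+1}`. -/
def side {n : ℕ} (ℓ : Fin n → ℝ) (u : Fin n → E3) (i : Fin n) : Set E3 :=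
  segment ℝ (vertex ℓ u i) (vertex ℓ u (i + 1))

/-- Self-intersecting configurations. -/
def SelfIntersecting {n : ℕ} (ℓ : Fin n → ℝ) (u : Fin n → E3) : Prop :=
  ∃ i j : Fin n, i ≠ j ∧ ∃ x, x ∈ side ℓ u i ∧ x ∈ side ℓ u j ∧
    ¬ ((j : ℕ) = (i + 1) % n ∧ x = vertex ℓ u (i + 1)) ∧
    ¬ ((i : ℕ) = (j + 1) % n ∧ x = vertex ℓ u (j + 1))

/-- The set `X ⊆ M_ℓ` of self-intersecting configurations. -/
def X {n : ℕ} (ℓ : Fin n → ℝ) : Set (PolygonSpace ℓ) :=
  {q | ∃ u : ClosedTuple ℓ, Quotient.mk (rotSetoid ℓ) u = q ∧ SelfIntersecting ℓ u.1}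

section general

variable {n : ℕ} (ℓ : Fin n → ℝ) (u : Fin n → E3)

lemma vertex_zero : vertex ℓ u 0 = 0 := by simp [vertex]

lemma vertex_succ (i : Fin n) : vertex ℓ u (i + 1) = vertex ℓ u i + ℓ i • u i := by
  unfold vertex
  have : (Finset.univ.filter fun j : Fin n => (j : ℕ) < (i : ℕ) + 1)
      = insert i (Finset.univ.filter fun j : Fin n => (j : ℕ) < (i : ℕ)) := by
    ext j
    simp only [Finset.mem_filter, Finset.mem_univ, true_and, Finset.mem_insert, Fin.ext_iff]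
    omega
  rw [this, Finset.sum_insert (by simp), add_comm]

lemma vertex_last (h : ∑ i, ℓ i • u i = 0) : vertex ℓ u n = 0 := by
  unfold vertex
  have : (Finset.univ.filter fun j : Fin n => (j : ℕ) < n) = Finset.univ := by
    ext j
    simp
  rw [this, h]

lemma vertex_map {v : Fin n → E3} (g : E3 ≃ₗᵢ[ℝ] E3) (h : ∀ i, v i = g (u i)) (k : ℕ) :
    vertex ℓ v k = g (vertex ℓ u k) := by
  unfold vertex
  rw [map_sum]
  refine Finset.sum_congr rfl fun i _ => ?_
  rw [h i, map_smul]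

lemma continuous_vertex (k : ℕ) : Continuous fun u : ClosedTuple ℓ => vertex ℓ u.1 k := by
  unfold vertex
  refine continuous_finsetSum _ fun i _ => ?_
  exact ((continuous_apply i).comp continuous_subtype_val).const_smul (ℓ i)

lemma self_iff_of_rel {u v : ClosedTuple ℓ} (h : (rotSetoid ℓ).r u v)
    (hu : SelfIntersecting ℓ u.1) : SelfIntersecting ℓ v.1 := by
  obtain ⟨g, -, hg⟩ := h
  obtain ⟨i, j, hij, x, hi, hj, h1, h2⟩ := hu
  have hs : ∀ i, ∀ x, x ∈ side ℓ u.1 i → g x ∈ side ℓ v.1 i := by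
    rintro i x ⟨a, b, ha, hb, hab, rfl⟩
    refine ⟨a, b, ha, hb, hab, ?_⟩
    rw [vertex_map ℓ u.1 g hg, vertex_map ℓ u.1 g hg, map_add, map_smul, map_smul]
  refine ⟨i, j, hij, g x, hs i x hi, hs j x hj, ?_, ?_⟩
  · rintro ⟨e, e'⟩
    rw [vertex_map ℓ u.1 g hg] at e'
    exact h1 ⟨e, g.injective e'⟩
  · rintro ⟨e, e'⟩
    rw [vertex_map ℓ u.1 g hg] at e'
    exact h2 ⟨e, g.injective e'⟩

lemma mk_mem_X {u : ClosedTuple ℓ} :
    Quotient.mk (rotSetoid ℓ) u ∈ X ℓ ↔ SelfIntersecting ℓ u.1 := by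
  constructor
  · rintro ⟨v, hv, hs⟩
    exact self_iff_of_rel ℓ (Quotient.exact hv) hs
  · intro h
    exact ⟨u, rfl, h⟩

end general



/-- Two segments meet as soon as some positive combinations of their endpoints agree. -/
lemma seg_meet {E : Type*} [AddCommGroup E] [Module ℝ E] {P Q P' Q' : E} {m₁ m₂ n₁ n₂ : ℝ}
    (h1 : 0 ≤ m₁) (h2 : 0 ≤ m₂) (h3 : 0 ≤ n₁) (h4 : 0 ≤ n₂) (hs : m₁ + m₂ = n₁ + n₂)
    (hp : 0 < m₁ + m₂) (h : m₁ • P + m₂ • Q = n₁ • P' + n₂ • Q') :
    ∃ z, z ∈ segment ℝ P Q ∧ z ∈ segment ℝ P' Q' := by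
  refine ⟨(m₁ + m₂)⁻¹ • (m₁ • P + m₂ • Q), ?_, ?_⟩
  · refine ⟨m₁ / (m₁ + m₂), m₂ / (m₁ + m₂), by positivity, by positivity, by field_simp, ?_⟩
    rw [smul_add, smul_smul, smul_smul]
    congr 2 <;> ring
  · rw [h]
    have hp' : 0 < n₁ + n₂ := hs ▸ hp
    refine ⟨n₁ / (n₁ + n₂), n₂ / (n₁ + n₂), by positivity, by positivity, by field_simp, ?_⟩
    rw [smul_add, smul_smul, smul_smul, hs]
    congr 2 <;> ring

lemma planar {E : Type*} [AddCommGroup E] [Module ℝ E] {P₁ P₂ P₃ P₄ x y : E}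
    {l2 l3 l4 m1 m2 m3 : ℝ}
    (hl2 : 0 < l2) (hl3 : 0 < l3) (hl4 : 0 < l4) (hm1 : 0 < m1) (hm2 : 0 < m2) (hm3 : 0 < m3)
    (hl : l2 + l3 + l4 = 1) (hm : m1 + m2 + m3 = 1)
    (hx : x = l2 • P₂ + l3 • P₃ + l4 • P₄) (hy : y = m1 • P₁ + m2 • P₂ + m3 • P₃)
    (hO : l2 * m3 < l3 * m2)
    (h1 : ∀ z, z ∈ segment ℝ P₁ x → z ∈ segment ℝ P₂ P₃ → False)
    (h2 : ∀ z, z ∈ segment ℝ P₁ x → z ∈ segment ℝ P₃ P₄ → False)
    (h3 : ∀ z, z ∈ segment ℝ P₄ y → z ∈ segment ℝ P₁ P₂ → False)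
    (h4 : ∀ z, z ∈ segment ℝ P₄ y → z ∈ segment ℝ P₂ P₃ → False)
    (h5 : ∀ z, z ∈ segment ℝ P₁ x → z ∈ segment ℝ P₄ y → False)
    (h6 : P₃ ∉ segment ℝ P₁ P₂) (h7 : P₂ ∉ segment ℝ P₃ P₄) (h8 : P₂ ≠ P₃)
    {c1 c2 c3 c4 : ℝ} (hc : c1 • P₁ + c2 • P₂ + c3 • P₃ + c4 • P₄ = 0)
    (hs : c1 + c2 + c3 + c4 = 0) (hne : ¬ (c1 = 0 ∧ c2 = 0 ∧ c3 = 0 ∧ c4 = 0)) : False := by
  -- the two essential sign patterns
  have caseA : ∀ c1 c2 c3 c4 : ℝ, c1 • P₁ + c2 • P₂ + c3 • P₃ + c4 • P₄ = 0 →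
      c1 + c2 + c3 + c4 = 0 → 0 ≤ c1 → 0 ≤ c4 → 0 < c1 + c4 → False := by
    intro c1 c2 c3 c4 hc hs p1 p4 p14
    -- x-part
    have hxp : 0 < c4 → 0 < c3 := by
      intro p4
      by_contra hc3
      push Not at hc3
      have hn2 : 0 < c4 * l3 - l4 * c3 := by nlinarith [mul_pos p4 hl3]
      by_cases hn1 : 0 ≤ c4 * l2 - l4 * c2
      · have key : (l4 * c1) • P₁ + c4 • x
            = (c4 * l2 - l4 * c2) • P₂ + (c4 * l3 - l4 * c3) • P₃ := by
          rw [hx]
          linear_combination (norm := module) l4 • hc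
        obtain ⟨z, hz1, hz2⟩ := seg_meet (by positivity) p4.le hn1 hn2.le
          (by linear_combination (-c4) * hl + l4 * hs) (by positivity) key
        exact h1 z hz1 hz2
      · push Not at hn1
        have pc2 : 0 < c2 := by
          have : 0 < l4 * c2 := by nlinarith [mul_pos p4 hl2]
          exact (mul_pos_iff_of_pos_left hl4).mp this
        have key : (l2 * c1) • P₁ + c2 • x
            = (c2 * l3 - l2 * c3) • P₃ + (c2 * l4 - l2 * c4) • P₄ := by
          rw [hx]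
          linear_combination (norm := module) l2 • hc
        obtain ⟨z, hz1, hz2⟩ := seg_meet (by positivity) pc2.le
          (by nlinarith [mul_pos pc2 hl3]) (by nlinarith)
          (by linear_combination (-c2) * hl + l2 * hs) (by positivity) key
        exact h2 z hz1 hz2
    have hyp : 0 < c1 → 0 < c2 := by
      intro p1
      by_contra hc2
      push Not at hc2
      have hn1 : 0 < c1 * m2 - m1 * c2 := by nlinarith [mul_pos p1 hm2]
      by_cases hn2 : 0 ≤ c1 * m3 - m1 * c3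
      · have key : (m1 * c4) • P₄ + c1 • y
            = (c1 * m2 - m1 * c2) • P₂ + (c1 * m3 - m1 * c3) • P₃ := by
          rw [hy]
          linear_combination (norm := module) m1 • hc
        obtain ⟨z, hz1, hz2⟩ := seg_meet (by positivity) p1.le hn1.le hn2
          (by linear_combination (-c1) * hm + m1 * hs) (by positivity) key
        exact h4 z hz1 hz2
      · push Not at hn2
        have pc3 : 0 < c3 := by
          have : 0 < m1 * c3 := by nlinarith [mul_pos p1 hm3]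
          exact (mul_pos_iff_of_pos_left hm1).mp this
        have key : (m3 * c4) • P₄ + c3 • y
            = (c3 * m1 - m3 * c1) • P₁ + (c3 * m2 - m3 * c2) • P₂ := by
          rw [hy]
          linear_combination (norm := module) m3 • hc
        obtain ⟨z, hz1, hz2⟩ := seg_meet (by positivity) pc3.le
          (by nlinarith) (by nlinarith [mul_pos pc3 hm2])
          (by linear_combination (-c3) * hm + m3 * hs) (by positivity) key
        exact h3 z hz1 hz2
    rcases p1.eq_or_lt with e1 | q1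
    · subst e1
      have q4 : 0 < c4 := by linarith
      have q3 := hxp q4
      apply h7
      have q2 : c2 < 0 := by linarith
      refine ⟨c3 / (-c2), c4 / (-c2), by apply div_nonneg <;> linarith,
        by apply div_nonneg <;> linarith, ?_, ?_⟩
      · rw [← add_div, div_eq_one_iff_eq (by linarith)]; linarith
      · have : (-c2) • (P₂ : E) = c3 • P₃ + c4 • P₄ := by
          linear_combination (norm := module) (-1 : ℝ) • hc
        rw [div_eq_inv_mul, div_eq_inv_mul, mul_smul, mul_smul, ← smul_add, ← this, smul_smul,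
          inv_mul_cancel₀ (by linarith), one_smul]
    · rcases p4.eq_or_lt with e4 | q4
      · subst e4
        have q2 := hyp q1
        apply h6
        have q3 : c3 < 0 := by linarith
        refine ⟨c1 / (-c3), c2 / (-c3), by apply div_nonneg <;> linarith,
          by apply div_nonneg <;> linarith, ?_, ?_⟩
        · rw [← add_div, div_eq_one_iff_eq (by linarith)]; linarith
        · have : (-c3) • (P₃ : E) = c1 • P₁ + c2 • P₂ := by
            linear_combination (norm := module) (-1 : ℝ) • hc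
          rw [div_eq_inv_mul, div_eq_inv_mul, mul_smul, mul_smul, ← smul_add, ← this, smul_smul,
            inv_mul_cancel₀ (by linarith), one_smul]
      · have := hxp q4
        have := hyp q1
        linarith
  have caseB : ∀ c1 c2 c3 c4 : ℝ, c1 • P₁ + c2 • P₂ + c3 • P₃ + c4 • P₄ = 0 →
      c1 + c2 + c3 + c4 = 0 → c1 < 0 → 0 < c4 → False := by
    intro c1 c2 c3 c4 hc hs p1 p4
    have hU : ¬ (c2 * m3 - c3 * m2 < 0 ∧ 0 < c3) := by
      rintro ⟨u, q3⟩
      have key : (m3 * c4) • P₄ + c3 • y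
            = (c3 * m1 - m3 * c1) • P₁ + (c3 * m2 - m3 * c2) • P₂ := by
          rw [hy]
          linear_combination (norm := module) m3 • hc
      obtain ⟨z, hz1, hz2⟩ := seg_meet (by positivity) q3.le
          (by nlinarith [mul_pos q3 hm1]) (by nlinarith)
          (by linear_combination (-c3) * hm + m3 * hs) (by positivity) key
      exact h3 z hz1 hz2
    have hW : ¬ (c2 * l3 - c3 * l2 < 0 ∧ c2 < 0) := by
      rintro ⟨w, q2⟩
      have key : (-(l2 * c1)) • P₁ + (-c2) • x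
            = (-(c2 * l3 - l2 * c3)) • P₃ + (-(c2 * l4 - l2 * c4)) • P₄ := by
          rw [hx]
          linear_combination (norm := module) (-l2) • hc
      obtain ⟨z, hz1, hz2⟩ := seg_meet (by nlinarith) (by linarith)
          (by nlinarith) (by nlinarith [mul_pos (neg_pos.mpr q2) hl4])
          (by linear_combination (c2) * hl - l2 * hs) (by nlinarith) key
      exact h2 z hz1 hz2
    by_cases u : c2 * m3 - c3 * m2 < 0
    · have q3 : c3 ≤ 0 := by
        by_contra h; push Not at h; exact hU ⟨u, h⟩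
      have q2 : c2 < 0 := by
        by_contra h; push Not at h
        nlinarith [mul_nonneg h hm3.le, mul_nonneg (neg_nonneg.mpr q3) hm2.le]
      refine hW ⟨?_, q2⟩
      -- c2 l3 < c3 l2 from c2 m3 < c3 m2 and l2 m3 < l3 m2
      have e1 : c2 * (l3 * m2) < c2 * (l2 * m3) := by nlinarith
      have e2 : (c2 * m3) * l2 < (c3 * m2) * l2 := by nlinarith
      have e3 : (c2 * l3) * m2 < (c3 * l2) * m2 := by nlinarith
      have := lt_of_mul_lt_mul_right e3 hm2.le
      linarith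
    · by_cases w : c2 * l3 - c3 * l2 < 0
      · have q2 : 0 ≤ c2 := by
          by_contra h; push Not at h; exact hW ⟨w, h⟩
        have q3 : 0 < c3 := by
          by_contra h; push Not at h
          nlinarith [mul_nonneg q2 hl3.le, mul_nonneg (neg_nonneg.mpr h) hl2.le]
        apply u
        have e1 : c3 * (l2 * m3) < c3 * (l3 * m2) := by nlinarith
        have e2 : (c2 * l3) * m3 < (c3 * l2) * m3 := by nlinarith
        have e3 : (c2 * m3) * l3 < (c3 * m2) * l3 := by nlinarith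
        have := lt_of_mul_lt_mul_right e3 hl3.le
        linarith
      · push Not at u w
        have O' : 0 < l3 * m2 - l2 * m3 := by linarith
        have key : (m1 * (c2 * l3 - c3 * l2) - (l3 * m2 - l2 * m3) * c1) • P₁
            + (c2 * m3 - c3 * m2) • x
            = (l4 * (c2 * m3 - c3 * m2) + (l3 * m2 - l2 * m3) * c4) • P₄
            + (c2 * l3 - c3 * l2) • y := by
          rw [hx, hy]
          linear_combination (norm := module) (-(l3 * m2 - l2 * m3)) • hc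
        have a1 : 0 < -((l3 * m2 - l2 * m3) * c1) := by nlinarith
        obtain ⟨z, hz1, hz2⟩ := seg_meet (by nlinarith) u (by positivity) w
          (by
            linear_combination (-(c2 * m3 - c3 * m2)) * hl + (c2 * l3 - c3 * l2) * hm
              - (l3 * m2 - l2 * m3) * hs) (by nlinarith) key
        exact h5 z hz1 hz2
  have hc' : (-c1) • P₁ + (-c2) • P₂ + (-c3) • P₃ + (-c4) • P₄ = 0 := by
    linear_combination (norm := module) (-1 : ℝ) • hc
  rcases lt_trichotomy c1 0 with p | p | p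
  · rcases lt_trichotomy c4 0 with q | q | q
    · exact caseA _ _ _ _ hc' (by linarith) (by linarith) (by linarith) (by linarith)
    · exact caseA _ _ _ _ hc' (by linarith) (by linarith) (by linarith) (by linarith)
    · exact caseB _ _ _ _ hc hs p q
  · rcases lt_trichotomy c4 0 with q | q | q
    · exact caseA _ _ _ _ hc' (by linarith) (by linarith) (by linarith) (by linarith)
    · subst p q
      have h23 : c2 = -c3 := by linarith
      have hc3 : c3 ≠ 0 := by
        intro h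
        exact hne ⟨rfl, by rw [h23, h]; simp, h, rfl⟩
      apply h8
      have : c3 • (P₂ - P₃) = 0 := by
        rw [h23] at hc
        linear_combination (norm := module) (-1 : ℝ) • hc
      rcases smul_eq_zero.mp this with h | h
      · exact absurd h hc3
      · exact sub_eq_zero.mp h
    · exact caseA _ _ _ _ hc (by linarith) (by linarith) (by linarith) (by linarith)
  · rcases lt_trichotomy c4 0 with q | q | q
    · exact caseB _ _ _ _ hc' (by linarith) (by linarith) (by linarith)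
    · exact caseA _ _ _ _ hc (by linarith) (by linarith) (by linarith) (by linarith)
    · exact caseA _ _ _ _ hc (by linarith) (by linarith) (by linarith) (by linarith)

/-- From a weak to the strict form of the piercing conditions. -/
lemma strict {E : Type*} [AddCommGroup E] [Module ℝ E] {P₁ P₂ P₃ P₄ x y : E}
    {l2 l3 l4 m1 m2 m3 : ℝ}
    (hl2 : 0 ≤ l2) (hl3 : 0 ≤ l3) (hl4 : 0 ≤ l4) (hm1 : 0 ≤ m1) (hm2 : 0 ≤ m2) (hm3 : 0 ≤ m3)
    (hl : l2 + l3 + l4 = 1) (hm : m1 + m2 + m3 = 1)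
    (hx : x = l2 • P₂ + l3 • P₃ + l4 • P₄) (hy : y = m1 • P₁ + m2 • P₂ + m3 • P₃)
    (hO : l2 * m3 ≤ l3 * m2)
    (h1 : ∀ z, z ∈ segment ℝ P₁ x → z ∈ segment ℝ P₂ P₃ → False)
    (h2 : ∀ z, z ∈ segment ℝ P₁ x → z ∈ segment ℝ P₃ P₄ → False)
    (h3 : ∀ z, z ∈ segment ℝ P₄ y → z ∈ segment ℝ P₁ P₂ → False)
    (h4 : ∀ z, z ∈ segment ℝ P₄ y → z ∈ segment ℝ P₂ P₃ → False)
    (h5 : ∀ z, z ∈ segment ℝ P₁ x → z ∈ segment ℝ P₄ y → False) :
    0 < l2 ∧ 0 < l3 ∧ 0 < l4 ∧ 0 < m1 ∧ 0 < m2 ∧ 0 < m3 ∧ l2 * m3 < l3 * m2 := by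
  have a4 : 0 < l4 := by
    refine lt_of_le_of_ne hl4 fun h => h1 x (right_mem_segment ℝ _ _) ⟨l2, l3, hl2, hl3, ?_, ?_⟩
    · linarith
    · rw [hx, ← h, zero_smul, add_zero]
  have a2 : 0 < l2 := by
    refine lt_of_le_of_ne hl2 fun h => h2 x (right_mem_segment ℝ _ _) ⟨l3, l4, hl3, hl4, ?_, ?_⟩
    · linarith
    · rw [hx, ← h, zero_smul, zero_add]
  have b1 : 0 < m1 := by
    refine lt_of_le_of_ne hm1 fun h => h4 y (right_mem_segment ℝ _ _) ⟨m2, m3, hm2, hm3, ?_, ?_⟩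
    · linarith
    · rw [hy, ← h, zero_smul, zero_add]
  have b3 : 0 < m3 := by
    refine lt_of_le_of_ne hm3 fun h => h3 y (right_mem_segment ℝ _ _) ⟨m1, m2, hm1, hm2, ?_, ?_⟩
    · linarith
    · rw [hy, ← h, zero_smul, add_zero]
  have h32 : 0 < l3 * m2 := lt_of_lt_of_le (mul_pos a2 b3) hO
  have a3 : 0 < l3 := by
    refine lt_of_le_of_ne hl3 fun h => ?_
    rw [← h, zero_mul] at h32
    exact lt_irrefl _ h32
  have b2 : 0 < m2 := by
    refine lt_of_le_of_ne hm2 fun h => ?_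
    rw [← h, mul_zero] at h32
    exact lt_irrefl _ h32
  refine ⟨a2, a3, a4, b1, b2, b3, lt_of_le_of_ne hO fun h => ?_⟩
  have i4 : 0 < 1 - l4 := by linarith
  have i1 : 0 < 1 - m1 := by linarith
  have key : (m1 * (1 - l4)) • P₁ + (1 - m1) • x = (l4 * (1 - m1)) • P₄ + (1 - l4) • y := by
    have e2 : (1 - m1) * l2 = (1 - l4) * m2 := by
      have : 1 - m1 = m2 + m3 := by linarith
      rw [this]
      have : 1 - l4 = l2 + l3 := by linarith
      rw [this]
      linarith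
    have e3 : (1 - m1) * l3 = (1 - l4) * m3 := by
      have : 1 - m1 = m2 + m3 := by linarith
      rw [this]
      have : 1 - l4 = l2 + l3 := by linarith
      rw [this]
      linarith
    rw [hx, hy]
    linear_combination (norm := module) e2 • P₂ + e3 • P₃
  obtain ⟨z, hz1, hz2⟩ := seg_meet (by positivity) i1.le (by positivity) i4.le (by ring)
    (by positivity) key
  exact h5 z hz1 hz2


/-- The triple product. -/
def D (u v w : E3) : ℝ :=
  u 0 * (v 1 * w 2 - v 2 * w 1) - u 1 * (v 0 * w 2 - v 2 * w 0) + u 2 * (v 0 * w 1 - v 1 * w 0)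

lemma D_eq_det (u v w : E3) :
    D u v w = (EuclideanSpace.basisFun (Fin 3) ℝ).toBasis.det ![u, v, w] := by
  rw [Module.Basis.det_apply, Matrix.det_fin_three]
  simp [Module.Basis.toMatrix_apply, D]
  ring

lemma D_map (g : E3 ≃ₗᵢ[ℝ] E3) (hg : LinearMap.det (g.toLinearEquiv : E3 →ₗ[ℝ] E3) = 1)
    (u v w : E3) : D (g u) (g v) (g w) = D u v w := by
  rw [D_eq_det, D_eq_det]
  have : ![g u, g v, g w] = (g.toLinearEquiv : E3 →ₗ[ℝ] E3) ∘ ![u, v, w] := by
    funext i
    fin_cases i <;> rfl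
  rw [this, Module.Basis.det_comp, hg, one_mul]

lemma cramer (a e f h : E3) :
    (D e f h) • a = (D a f h) • e + (D e a h) • f + (D e f a) • h := by
  ext i
  fin_cases i <;> simp [D] <;> ring

lemma exists_dep {e f h : E3} (h0 : D e f h = 0) :
    ∃ a b c : ℝ, ¬ (a = 0 ∧ b = 0 ∧ c = 0) ∧ a • e + b • f + c • h = 0 := by
  have hdet : (Matrix.of ![(e : Fin 3 → ℝ), f, h]).det = 0 := by
    rw [Matrix.det_fin_three, ← h0]
    simp [D]
    ring
  obtain ⟨v, hv, hv0⟩ := Matrix.exists_vecMul_eq_zero_iff.mpr hdet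
  refine ⟨v 0, v 1, v 2, ?_, ?_⟩
  · rintro ⟨p, q, r⟩
    apply hv
    funext i
    fin_cases i <;> simp [p, q, r]
  · ext i
    have := congrFun hv0 i
    simp only [Matrix.vecMul, dotProduct, Fin.sum_univ_three, Matrix.of_apply] at this
    simpa using this

/-- If `a` is long compared with `e, f, h` and lies in the open cone they span, then the segment
from `0` to `a` pierces the triangle `e f h`. -/
lemma pierce {a e f h : E3} (h1 : 0 < D a f h * D e f h) (h2 : 0 < D e a h * D e f h)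
    (h3 : 0 < D e f a * D e f h) (ha : 10 < ‖a‖) (he : ‖e‖ ≤ 10) (hf : ‖f‖ ≤ 10)
    (hh : ‖h‖ ≤ 10) :
    ∃ t : ℝ, 0 < t ∧ t ≤ 1 ∧ 0 < t * (D a f h / D e f h) ∧ 0 < t * (D e a h / D e f h) ∧
      0 < t * (D e f a / D e f h) ∧
      t * (D a f h / D e f h) + t * (D e a h / D e f h) + t * (D e f a / D e f h) = 1 ∧
      t • a = (t * (D a f h / D e f h)) • e + (t * (D e a h / D e f h)) • f
        + (t * (D e f a / D e f h)) • h := by
  set V := D e f h with hV
  have hV0 : V ≠ 0 := by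
    intro h0
    rw [h0, mul_zero] at h1
    exact lt_irrefl _ h1
  have hV2 : 0 < V * V := mul_self_pos.mpr hV0
  have q : ∀ c : ℝ, 0 < c * V → 0 < c / V := by
    intro c hc
    have : c / V = (c * V) / (V * V) := by field_simp
    rw [this]
    exact div_pos hc hV2
  have p1 := q _ h1
  have p2 := q _ h2
  have p3 := q _ h3
  have ea : a = (D a f h / V) • e + (D e a h / V) • f + (D e f a / V) • h := by
    have := cramer a e f h
    rw [← hV] at this
    have h' : a = V⁻¹ • (V • a) := by rw [smul_smul, inv_mul_cancel₀ hV0, one_smul]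
    conv_lhs => rw [h', this]
    rw [smul_add, smul_add, smul_smul, smul_smul, smul_smul]
    simp only [div_eq_inv_mul]
  have hS : 1 < D a f h / V + D e a h / V + D e f a / V := by
    have n1 : ‖a‖ ≤ (D a f h / V) * 10 + (D e a h / V) * 10 + (D e f a / V) * 10 := by
      calc ‖a‖ = ‖(D a f h / V) • e + (D e a h / V) • f + (D e f a / V) • h‖ := by rw [← ea]
        _ ≤ ‖(D a f h / V) • e‖ + ‖(D e a h / V) • f‖ + ‖(D e f a / V) • h‖ := norm_add₃_le
        _ = (D a f h / V) * ‖e‖ + (D e a h / V) * ‖f‖ + (D e f a / V) * ‖h‖ := by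
            rw [norm_smul, norm_smul, norm_smul, Real.norm_of_nonneg p1.le,
              Real.norm_of_nonneg p2.le, Real.norm_of_nonneg p3.le]
        _ ≤ _ := by gcongr
    linarith
  set S := D a f h / V + D e a h / V + D e f a / V with hSd
  have hS0 : 0 < S := by linarith
  refine ⟨S⁻¹, inv_pos.mpr hS0, inv_le_one_of_one_le₀ hS.le, by positivity, by positivity,
    by positivity, ?_, ?_⟩
  · rw [← mul_add, ← mul_add, ← hSd, inv_mul_cancel₀ hS0.ne']
  · conv_lhs => rw [ea]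
    rw [smul_add, smul_add, smul_smul, smul_smul, smul_smul]

def V (P : ℕ → E3) : ℝ := D (P 2 - P 1) (P 3 - P 1) (P 4 - P 1)
def A2 (P : ℕ → E3) : ℝ := D (P 0 - P 1) (P 3 - P 1) (P 4 - P 1)
def A3 (P : ℕ → E3) : ℝ := D (P 2 - P 1) (P 0 - P 1) (P 4 - P 1)
def A4 (P : ℕ → E3) : ℝ := D (P 2 - P 1) (P 3 - P 1) (P 0 - P 1)
def W (P : ℕ → E3) : ℝ := D (P 1 - P 4) (P 2 - P 4) (P 3 - P 4)
def B1 (P : ℕ → E3) : ℝ := D (P 5 - P 4) (P 2 - P 4) (P 3 - P 4)
def B2 (P : ℕ → E3) : ℝ := D (P 1 - P 4) (P 5 - P 4) (P 3 - P 4)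
def B3 (P : ℕ → E3) : ℝ := D (P 1 - P 4) (P 2 - P 4) (P 5 - P 4)

/-- The open condition: the two long needles pierce the opposite faces of the tetrahedron
`P 1, P 2, P 3, P 4` in a knotted way. -/
def Kpos (P : ℕ → E3) : Prop :=
  (0 < A2 P * V P ∧ 0 < A3 P * V P ∧ 0 < A4 P * V P) ∧
  (0 < B1 P * W P ∧ 0 < B2 P * W P ∧ 0 < B3 P * W P) ∧
  0 < (A3 P * B2 P - A2 P * B3 P) * (V P * W P)

/-- The closed form of the same condition, with witnesses. -/
def Kcl (P : ℕ → E3) (z : Fin 8 → ℝ) : Prop :=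
  z 0 + z 1 + z 2 = 1 ∧ z 3 + z 4 + z 5 = 1 ∧
  P 1 + z 6 • (P 0 - P 1) = z 0 • P 2 + z 1 • P 3 + z 2 • P 4 ∧
  P 4 + z 7 • (P 5 - P 4) = z 3 • P 1 + z 4 • P 2 + z 5 • P 3 ∧
  z 0 * z 5 ≤ z 1 * z 4

lemma Kcl_of_Kpos {P : ℕ → E3} (h01 : ‖P 0 - P 1‖ = 24) (h12 : ‖P 2 - P 1‖ = 3)
    (h23 : ‖P 3 - P 2‖ = 4) (h34 : ‖P 4 - P 3‖ = 3) (h45 : ‖P 5 - P 4‖ = 24) (hK : Kpos P) :
    ∃ z ∈ Set.Icc (0 : Fin 8 → ℝ) 1, Kcl P z := by
  obtain ⟨⟨a1, a2, a3⟩, ⟨b1, b2, b3⟩, c⟩ := hK
  have n13 : ‖P 3 - P 1‖ ≤ 10 := by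
    have : P 3 - P 1 = (P 3 - P 2) + (P 2 - P 1) := by abel
    rw [this]
    exact (norm_add_le _ _).trans (by rw [h23, h12]; norm_num)
  have n14 : ‖P 4 - P 1‖ ≤ 10 := by
    have : P 4 - P 1 = (P 4 - P 3) + (P 3 - P 2) + (P 2 - P 1) := by abel
    rw [this]
    exact norm_add₃_le.trans (by rw [h23, h12, h34]; norm_num)
  have n24 : ‖P 2 - P 4‖ ≤ 10 := by
    have : P 2 - P 4 = -((P 4 - P 3) + (P 3 - P 2)) := by abel
    rw [this, norm_neg]
    exact (norm_add_le _ _).trans (by rw [h23, h34]; norm_num)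
  obtain ⟨t, t0, t1, p1, p2, p3, ps, px⟩ := pierce a1 a2 a3 (by rw [h01]; norm_num)
    (by rw [h12]; norm_num) n13 n14
  obtain ⟨s, s0, s1, q1, q2, q3, qs, qy⟩ := pierce b1 b2 b3 (by rw [h45]; norm_num)
    (by rw [norm_sub_rev]; exact n14) n24 (by rw [norm_sub_rev, h34]; norm_num)
  change 0 < t * (A2 P / V P) at p1
  change 0 < t * (A3 P / V P) at p2
  change 0 < t * (A4 P / V P) at p3
  change t * (A2 P / V P) + t * (A3 P / V P) + t * (A4 P / V P) = 1 at ps
  change t • (P 0 - P 1) = (t * (A2 P / V P)) • (P 2 - P 1) + (t * (A3 P / V P)) • (P 3 - P 1)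
    + (t * (A4 P / V P)) • (P 4 - P 1) at px
  change 0 < s * (B1 P / W P) at q1
  change 0 < s * (B2 P / W P) at q2
  change 0 < s * (B3 P / W P) at q3
  change s * (B1 P / W P) + s * (B2 P / W P) + s * (B3 P / W P) = 1 at qs
  change s • (P 5 - P 4) = (s * (B1 P / W P)) • (P 1 - P 4) + (s * (B2 P / W P)) • (P 2 - P 4)
    + (s * (B3 P / W P)) • (P 3 - P 4) at qy
  have hV0 : V P ≠ 0 := by
    intro h0
    rw [h0, zero_mul, mul_zero] at c
    exact lt_irrefl _ c
  have hW0 : W P ≠ 0 := by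
    intro h0
    rw [h0, mul_zero, mul_zero] at c
    exact lt_irrefl _ c
  have hVW : 0 < (V P * W P) * (V P * W P) := mul_self_pos.mpr (mul_ne_zero hV0 hW0)
  have hord : 0 < (t * (A3 P / V P)) * (s * (B2 P / W P))
      - (t * (A2 P / V P)) * (s * (B3 P / W P)) := by
    have : (t * (A3 P / V P)) * (s * (B2 P / W P)) - (t * (A2 P / V P)) * (s * (B3 P / W P))
        = t * s * (((A3 P * B2 P - A2 P * B3 P) * (V P * W P))
          / ((V P * W P) * (V P * W P))) := by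
      field_simp
    rw [this]
    positivity
  generalize t * (A2 P / V P) = l2 at *
  generalize t * (A3 P / V P) = l3 at *
  generalize t * (A4 P / V P) = l4 at *
  generalize s * (B1 P / W P) = m1 at *
  generalize s * (B2 P / W P) = m2 at *
  generalize s * (B3 P / W P) = m3 at *
  refine ⟨![l2, l3, l4, m1, m2, m3, t, s], ⟨?_, ?_⟩, ?_⟩
  · intro i
    fin_cases i <;> simp <;> linarith
  · intro i
    fin_cases i <;> simp <;> linarith
  · refine ⟨?_, ?_, ?_, ?_, ?_⟩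
    · simpa using ps
    · simpa using qs
    · change P 1 + t • (P 0 - P 1) = l2 • P 2 + l3 • P 3 + l4 • P 4
      rw [px]
      linear_combination (norm := module) (-ps) • P 1
    · change P 4 + s • (P 5 - P 4) = m1 • P 1 + m2 • P 2 + m3 • P 3
      rw [qy]
      linear_combination (norm := module) (-qs) • P 4
    · change l2 * m3 ≤ l3 * m2
      linarith

lemma Kpos_of_Kcl {P : ℕ → E3} {z : Fin 8 → ℝ} (hz : z ∈ Set.Icc (0 : Fin 8 → ℝ) 1)
    (h1 : ∀ x, x ∈ segment ℝ (P 0) (P 1) → x ∈ segment ℝ (P 2) (P 3) → False)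
    (h2 : ∀ x, x ∈ segment ℝ (P 0) (P 1) → x ∈ segment ℝ (P 3) (P 4) → False)
    (h3 : ∀ x, x ∈ segment ℝ (P 4) (P 5) → x ∈ segment ℝ (P 1) (P 2) → False)
    (h4 : ∀ x, x ∈ segment ℝ (P 4) (P 5) → x ∈ segment ℝ (P 2) (P 3) → False)
    (h5 : ∀ x, x ∈ segment ℝ (P 0) (P 1) → x ∈ segment ℝ (P 4) (P 5) → False)
    (h6 : P 3 ∉ segment ℝ (P 1) (P 2)) (h7 : P 2 ∉ segment ℝ (P 3) (P 4)) (h8 : P 2 ≠ P 3)
    (hK : Kcl P z) : Kpos P := by
  obtain ⟨hl, hm, hx, hy, hO⟩ := hK
  have z0 : ∀ i, 0 ≤ z i := fun i => hz.1 i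
  have z1 : ∀ i, z i ≤ 1 := fun i => hz.2 i
  generalize e0 : z 0 = l2 at *
  generalize e1 : z 1 = l3 at *
  generalize e2 : z 2 = l4 at *
  generalize e3 : z 3 = m1 at *
  generalize e4 : z 4 = m2 at *
  generalize e5 : z 5 = m3 at *
  generalize e6 : z 6 = t at *
  generalize e7 : z 7 = s at *
  have nl2 : 0 ≤ l2 := e0 ▸ z0 0
  have nl3 : 0 ≤ l3 := e1 ▸ z0 1
  have nl4 : 0 ≤ l4 := e2 ▸ z0 2
  have nm1 : 0 ≤ m1 := e3 ▸ z0 3
  have nm2 : 0 ≤ m2 := e4 ▸ z0 4
  have nm3 : 0 ≤ m3 := e5 ▸ z0 5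
  have nt : 0 ≤ t := e6 ▸ z0 6
  have ns : 0 ≤ s := e7 ▸ z0 7
  have nt1 : t ≤ 1 := e6 ▸ z1 6
  have ns1 : s ≤ 1 := e7 ▸ z1 7
  set x := P 1 + t • (P 0 - P 1) with hxd
  set y := P 4 + s • (P 5 - P 4) with hyd
  have sx : segment ℝ (P 1) x ⊆ segment ℝ (P 0) (P 1) := by
    apply (convex_segment (P 0) (P 1)).segment_subset (right_mem_segment ℝ _ _)
    refine ⟨t, 1 - t, nt, by linarith, by ring, ?_⟩
    rw [hxd]
    module
  have sy : segment ℝ (P 4) y ⊆ segment ℝ (P 4) (P 5) := by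
    apply (convex_segment (P 4) (P 5)).segment_subset (left_mem_segment ℝ _ _)
    refine ⟨1 - s, s, by linarith, ns, by ring, ?_⟩
    rw [hyd]
    module
  have g1 : ∀ x', x' ∈ segment ℝ (P 1) x → x' ∈ segment ℝ (P 2) (P 3) → False :=
    fun x' hx' => h1 x' (sx hx')
  have g2 : ∀ x', x' ∈ segment ℝ (P 1) x → x' ∈ segment ℝ (P 3) (P 4) → False :=
    fun x' hx' => h2 x' (sx hx')
  have g3 : ∀ x', x' ∈ segment ℝ (P 4) y → x' ∈ segment ℝ (P 1) (P 2) → False :=
    fun x' hx' => h3 x' (sy hx')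
  have g4 : ∀ x', x' ∈ segment ℝ (P 4) y → x' ∈ segment ℝ (P 2) (P 3) → False :=
    fun x' hx' => h4 x' (sy hx')
  have g5 : ∀ x', x' ∈ segment ℝ (P 1) x → x' ∈ segment ℝ (P 4) y → False :=
    fun x' hx' hx'' => h5 x' (sx hx') (sy hx'')
  obtain ⟨pl2, pl3, pl4, pm1, pm2, pm3, pO⟩ :=
    strict nl2 nl3 nl4 nm1 nm2 nm3 hl hm hx hy hO g1 g2 g3 g4 g5
  have hV0 : V P ≠ 0 := by
    intro h0
    obtain ⟨a, b, c, hne, hd⟩ := exists_dep h0
    refine planar pl2 pl3 pl4 pm1 pm2 pm3 hl hm hx hy pO g1 g2 g3 g4 g5 h6 h7 h8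
      (c1 := -(a + b + c)) (c2 := a) (c3 := b) (c4 := c) ?_ (by ring) ?_
    · linear_combination (norm := module) hd
    · rintro ⟨-, ha, hb, hc⟩
      exact hne ⟨ha, hb, hc⟩
  have hWV : W P = - V P := by
    simp only [W, V, D, PiLp.sub_apply]
    ring
  have hW0 : W P ≠ 0 := by rw [hWV]; exact neg_ne_zero.mpr hV0
  have ex : t • (P 0 - P 1) = l2 • (P 2 - P 1) + l3 • (P 3 - P 1) + l4 • (P 4 - P 1) := by
    linear_combination (norm := module) hx + hl • P 1
  have ey : s • (P 5 - P 4) = m1 • (P 1 - P 4) + m2 • (P 2 - P 4) + m3 • (P 3 - P 4) := by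
    linear_combination (norm := module) hy + hm • P 4
  have c1 : t * A2 P = l2 * V P := by
    have e : D (t • (P 0 - P 1)) (P 3 - P 1) (P 4 - P 1) = l2 * V P := by
      rw [ex]; simp only [V, D, PiLp.add_apply, PiLp.smul_apply, smul_eq_mul]; ring
    rw [← e]; simp only [A2, D, PiLp.smul_apply, smul_eq_mul]; ring
  have c2 : t * A3 P = l3 * V P := by
    have e : D (P 2 - P 1) (t • (P 0 - P 1)) (P 4 - P 1) = l3 * V P := by
      rw [ex]; simp only [V, D, PiLp.add_apply, PiLp.smul_apply, smul_eq_mul]; ring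
    rw [← e]; simp only [A3, D, PiLp.smul_apply, smul_eq_mul]; ring
  have c3 : t * A4 P = l4 * V P := by
    have e : D (P 2 - P 1) (P 3 - P 1) (t • (P 0 - P 1)) = l4 * V P := by
      rw [ex]; simp only [V, D, PiLp.add_apply, PiLp.smul_apply, smul_eq_mul]; ring
    rw [← e]; simp only [A4, D, PiLp.smul_apply, smul_eq_mul]; ring
  have d1 : s * B1 P = m1 * W P := by
    have e : D (s • (P 5 - P 4)) (P 2 - P 4) (P 3 - P 4) = m1 * W P := by
      rw [ey]; simp only [W, D, PiLp.add_apply, PiLp.smul_apply, smul_eq_mul]; ring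
    rw [← e]; simp only [B1, D, PiLp.smul_apply, smul_eq_mul]; ring
  have d2 : s * B2 P = m2 * W P := by
    have e : D (P 1 - P 4) (s • (P 5 - P 4)) (P 3 - P 4) = m2 * W P := by
      rw [ey]; simp only [W, D, PiLp.add_apply, PiLp.smul_apply, smul_eq_mul]; ring
    rw [← e]; simp only [B2, D, PiLp.smul_apply, smul_eq_mul]; ring
  have d3 : s * B3 P = m3 * W P := by
    have e : D (P 1 - P 4) (P 2 - P 4) (s • (P 5 - P 4)) = m3 * W P := by
      rw [ey]; simp only [W, D, PiLp.add_apply, PiLp.smul_apply, smul_eq_mul]; ring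
    rw [← e]; simp only [B3, D, PiLp.smul_apply, smul_eq_mul]; ring
  have hV2 : 0 < V P * V P := mul_self_pos.mpr hV0
  have hW2 : 0 < W P * W P := mul_self_pos.mpr hW0
  have t0 : 0 < t := by
    refine lt_of_le_of_ne nt fun h => ?_
    rw [← h, zero_mul] at c1
    exact (mul_ne_zero pl2.ne' hV0) c1.symm
  have s0 : 0 < s := by
    refine lt_of_le_of_ne ns fun h => ?_
    rw [← h, zero_mul] at d1
    exact (mul_ne_zero pm1.ne' hW0) d1.symm
  have fin : ∀ (T c v l : ℝ), 0 < T → 0 < l → 0 < v * v → T * c = l * v → 0 < c * v := by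
    intro T c v l hT hl' hv he
    have : 0 < T * (c * v) := by
      have : T * (c * v) = l * (v * v) := by rw [← mul_assoc, he, mul_assoc]
      rw [this]; positivity
    exact (mul_pos_iff_of_pos_left hT).mp this
  refine ⟨⟨fin t _ _ l2 t0 pl2 hV2 c1, fin t _ _ l3 t0 pl3 hV2 c2, fin t _ _ l4 t0 pl4 hV2 c3⟩,
    ⟨fin s _ _ m1 s0 pm1 hW2 d1, fin s _ _ m2 s0 pm2 hW2 d2, fin s _ _ m3 s0 pm3 hW2 d3⟩, ?_⟩
  have : 0 < (t * s) * ((A3 P * B2 P - A2 P * B3 P) * (V P * W P)) := by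
    have e : (t * s) * ((A3 P * B2 P - A2 P * B3 P) * (V P * W P))
        = (l3 * m2 - l2 * m3) * ((V P * V P) * (W P * W P)) := by
      linear_combination (s * B2 P * V P * W P) * c2 + (l3 * V P * V P * W P) * d2
        - (s * B3 P * V P * W P) * c1 - (l2 * V P * V P * W P) * d3
    rw [e]
    have : 0 < l3 * m2 - l2 * m3 := by linarith
    positivity
  exact (mul_pos_iff_of_pos_left (by positivity)).mp this

lemma continuous_D {T : Type*} [TopologicalSpace T] {f g h : T → E3} (hf : Continuous f)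
    (hg : Continuous g) (hh : Continuous h) : Continuous fun t => D (f t) (g t) (h t) := by
  unfold D
  fun_prop

/-- The complex number whose argument is the dihedral angle at the axis `P 0 P 5` between `P 1`
and `P 6`. -/
noncomputable def Fc (P : ℕ → E3) : ℂ :=
  ⟨‖P 5 - P 0‖ ^ 2 * inner ℝ (P 1 - P 0) (P 6 - P 0)
      - inner ℝ (P 1 - P 0) (P 5 - P 0) * inner ℝ (P 6 - P 0) (P 5 - P 0),
    ‖P 5 - P 0‖ * D (P 5 - P 0) (P 1 - P 0) (P 6 - P 0)⟩

lemma Fc_map (P Q : ℕ → E3) (g : E3 ≃ₗᵢ[ℝ] E3)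
    (hg : LinearMap.det (g.toLinearEquiv : E3 →ₗ[ℝ] E3) = 1) (h : ∀ k, Q k = g (P k)) :
    Fc Q = Fc P := by
  unfold Fc
  simp only [h, ← map_sub, D_map g hg, LinearIsometryEquiv.inner_map_map,
    LinearIsometryEquiv.norm_map]

lemma Kpos_map (P Q : ℕ → E3) (g : E3 ≃ₗᵢ[ℝ] E3)
    (hg : LinearMap.det (g.toLinearEquiv : E3 →ₗ[ℝ] E3) = 1) (h : ∀ k, Q k = g (P k)) :
    Kpos Q ↔ Kpos P := by
  unfold Kpos A2 A3 A4 B1 B2 B3 V W
  simp only [h, ← map_sub, D_map g hg]

lemma inner_E3 (a b : E3) : inner ℝ a b = a 0 * b 0 + a 1 * b 1 + a 2 * b 2 := by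
  rw [PiLp.inner_apply, Fin.sum_univ_three]
  simp only [RCLike.inner_apply, conj_trivial]
  ring

lemma norm_sq_E3 (a : E3) : ‖a‖ ^ 2 = a 0 * a 0 + a 1 * a 1 + a 2 * a 2 := by
  rw [← real_inner_self_eq_norm_sq, inner_E3]

lemma gram (w v r : E3) :
    (‖w‖ ^ 2 * inner ℝ v r - inner ℝ v w * inner ℝ r w) ^ 2 + (‖w‖ * D w v r) ^ 2
      = (‖w‖ ^ 2 * ‖v‖ ^ 2 - inner ℝ v w ^ 2) * (‖w‖ ^ 2 * ‖r‖ ^ 2 - inner ℝ r w ^ 2) := by
  rw [mul_pow, norm_sq_E3, norm_sq_E3, norm_sq_E3, inner_E3, inner_E3, inner_E3, D]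
  ring

/-- Cauchy–Schwarz is strict when some triple product does not vanish. -/
lemma gram_pos {w v e : E3} (h : D v w e ≠ 0) : 0 < ‖w‖ ^ 2 * ‖v‖ ^ 2 - inner ℝ v w ^ 2 := by
  have e1 : ‖w‖ ^ 2 * ‖v‖ ^ 2 - inner ℝ v w ^ 2
      = (v 1 * w 2 - v 2 * w 1) ^ 2 + (v 0 * w 2 - v 2 * w 0) ^ 2
        + (v 0 * w 1 - v 1 * w 0) ^ 2 := by
    rw [norm_sq_E3, norm_sq_E3, inner_E3]
    ring
  have e2 : D v w e = e 0 * (v 1 * w 2 - v 2 * w 1) - e 1 * (v 0 * w 2 - v 2 * w 0)
      + e 2 * (v 0 * w 1 - v 1 * w 0) := by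
    rw [D]; ring
  rw [e1]
  by_contra hc
  push Not at hc
  have a := sq_nonneg (v 1 * w 2 - v 2 * w 1)
  have b := sq_nonneg (v 0 * w 2 - v 2 * w 0)
  have c := sq_nonneg (v 0 * w 1 - v 1 * w 0)
  have a' : v 1 * w 2 - v 2 * w 1 = 0 := pow_eq_zero_iff (two_ne_zero) |>.mp (by linarith)
  have b' : v 0 * w 2 - v 2 * w 0 = 0 := pow_eq_zero_iff (two_ne_zero) |>.mp (by linarith)
  have c' : v 0 * w 1 - v 1 * w 0 = 0 := pow_eq_zero_iff (two_ne_zero) |>.mp (by linarith)
  apply h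
  rw [e2, a', b', c']
  ring

lemma Fc_ne_zero {P : ℕ → E3} (h01 : ‖P 0 - P 1‖ = 24) (h12 : ‖P 2 - P 1‖ = 3)
    (h23 : ‖P 3 - P 2‖ = 4) (h34 : ‖P 4 - P 3‖ = 3) (h45 : ‖P 5 - P 4‖ = 24)
    (h56 : ‖P 6 - P 5‖ = 145) (h60 : ‖P 6 - P 0‖ = 145) (hK : Kpos P) : Fc P ≠ 0 := by
  obtain ⟨⟨a1, a2, a3⟩, ⟨b1, b2, b3⟩, c⟩ := hK
  have hV0 : V P ≠ 0 := by
    intro h0
    rw [h0, zero_mul, mul_zero] at c
    exact lt_irrefl _ c
  have hW0 : W P ≠ 0 := by
    intro h0
    rw [h0, mul_zero, mul_zero] at c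
    exact lt_irrefl _ c
  have hO : A2 P * B3 P - A3 P * B2 P ≠ 0 := by
    intro h0
    have : A3 P * B2 P - A2 P * B3 P = 0 := by linarith
    rw [this, zero_mul] at c
    exact lt_irrefl _ c
  have ca := cramer (P 0 - P 1) (P 2 - P 1) (P 3 - P 1) (P 4 - P 1)
  have cb := cramer (P 5 - P 4) (P 1 - P 4) (P 2 - P 4) (P 3 - P 4)
  change (V P) • (P 0 - P 1) = (A2 P) • (P 2 - P 1) + (A3 P) • (P 3 - P 1)
    + (A4 P) • (P 4 - P 1) at ca
  change (W P) • (P 5 - P 4) = (B1 P) • (P 1 - P 4) + (B2 P) • (P 2 - P 4)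
    + (B3 P) • (P 3 - P 4) at cb
  have key : V P * W P * D (P 0 - P 1) (P 5 - P 4) (P 4 - P 1)
      = (A2 P * B3 P - A3 P * B2 P) * V P := by
    have e1 : V P * W P * D (P 0 - P 1) (P 5 - P 4) (P 4 - P 1)
        = D (V P • (P 0 - P 1)) (W P • (P 5 - P 4)) (P 4 - P 1) := by
      simp only [D, PiLp.smul_apply, smul_eq_mul]; ring
    rw [e1, ca, cb]
    have e2 : V P = D (P 2 - P 1) (P 3 - P 1) (P 4 - P 1) := rfl
    rw [e2]
    simp only [D, PiLp.smul_apply, PiLp.add_apply, PiLp.sub_apply, smul_eq_mul]; ring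
  have hD : D (P 0 - P 1) (P 5 - P 4) (P 4 - P 1) ≠ 0 := by
    intro h0
    rw [h0, mul_zero] at key
    exact (mul_ne_zero hO hV0) key.symm
  have hD' : D (P 1 - P 0) (P 5 - P 0) (P 4 - P 1) ≠ 0 := by
    have : D (P 1 - P 0) (P 5 - P 0) (P 4 - P 1) = - D (P 0 - P 1) (P 5 - P 4) (P 4 - P 1) := by
      simp only [D, PiLp.sub_apply]; ring
    rw [this]
    exact neg_ne_zero.mpr hD
  have g1 := gram_pos hD'
  -- the second Gram determinant
  set w := P 5 - P 0 with hw
  set r := P 6 - P 0 with hr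
  have hrw : ‖r - w‖ = 145 := by
    have : r - w = P 6 - P 5 := by rw [hr, hw]; abel
    rw [this, h56]
  have hin : inner ℝ r w = ‖w‖ ^ 2 / 2 := by
    have := norm_sub_sq_real r w
    rw [hrw, h60] at this
    linarith
  have hw0 : 0 < ‖w‖ ^ 2 := by
    rcases (sq_nonneg ‖w‖).eq_or_lt with h | h
    · exfalso
      have hz : w = 0 := by
        have : ‖w‖ = 0 := by
          rcases pow_eq_zero_iff (two_ne_zero) |>.mp h.symm with h'
          exact h'
        exact norm_eq_zero.mp this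
      apply hD'
      rw [hz]
      simp [D]
    · exact h
  have hw1 : ‖w‖ ≤ 58 := by
    have : w = -(P 0 - P 1) + (P 2 - P 1) + (P 3 - P 2) + (P 4 - P 3) + (P 5 - P 4) := by
      rw [hw]; abel
    rw [this]
    calc _ ≤ ‖-(P 0 - P 1)‖ + ‖P 2 - P 1‖ + ‖P 3 - P 2‖ + ‖P 4 - P 3‖ + ‖P 5 - P 4‖ := by
          refine (norm_add_le _ _).trans (add_le_add_left ?_ _)
          refine (norm_add_le _ _).trans (add_le_add_left ?_ _)
          exact norm_add₃_le
      _ = 58 := by rw [norm_neg, h01, h12, h23, h34, h45]; norm_num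
  have g2 : 0 < ‖w‖ ^ 2 * ‖r‖ ^ 2 - inner ℝ r w ^ 2 := by
    rw [hin, h60]
    have : ‖w‖ ^ 2 * 145 ^ 2 - (‖w‖ ^ 2 / 2) ^ 2 = ‖w‖ ^ 2 * (145 ^ 2 - ‖w‖ ^ 2 / 4) := by ring
    rw [this]
    have : ‖w‖ ^ 2 ≤ 58 ^ 2 := pow_le_pow_left₀ (norm_nonneg _) hw1 2
    apply mul_pos hw0
    linarith
  intro h0
  have hre : ‖w‖ ^ 2 * inner ℝ (P 1 - P 0) r - inner ℝ (P 1 - P 0) w * inner ℝ r w = 0 :=
    congrArg Complex.re h0
  have him : ‖w‖ * D w (P 1 - P 0) r = 0 := congrArg Complex.im h0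
  have := gram w (P 1 - P 0) r
  rw [hre, him] at this
  have := mul_pos g1 g2
  linarith



open unitInterval in
/-- A space carrying a nowhere zero complex function with nonzero winding along a loop is not
simply connected. -/
lemma no_loop {C : Type*} [TopologicalSpace C] [SimplyConnectedSpace C] (Φ : C → ℂ)
    (hΦ : Continuous Φ) (h0 : ∀ c, Φ c ≠ 0) (γ : ℝ → C) (hγ : Continuous γ)
    (hper : γ (2 * Real.pi) = γ 0) (κ : ℂ)
    (hκ : ∀ θ : ℝ, Φ (γ θ) = κ * Complex.exp (θ * Complex.I)) : False := by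
  have hκ0 : κ ≠ 0 := by
    intro h
    apply h0 (γ 0)
    rw [hκ, h, zero_mul]
  let F : C → Circle := fun c => ⟨(Φ c / κ) / (‖Φ c / κ‖ : ℂ), by
    refine mem_sphere_zero_iff_norm.mpr ?_
    rw [norm_div, Complex.norm_real, norm_norm, div_self]
    exact norm_ne_zero_iff.mpr (div_ne_zero (h0 c) hκ0)⟩
  have hF : Continuous F := by
    refine Continuous.subtype_mk ?_ _
    refine Continuous.div (hΦ.div_const κ)
      (Complex.continuous_ofReal.comp (hΦ.div_const κ).norm) fun c => ?_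
    rw [Complex.ofReal_ne_zero]
    exact norm_ne_zero_iff.mpr (div_ne_zero (h0 c) hκ0)
  have hFγ : ∀ θ : ℝ, F (γ θ) = Circle.exp θ := by
    intro θ
    apply Circle.ext
    change (Φ (γ θ) / κ) / (‖Φ (γ θ) / κ‖ : ℂ) = _
    rw [hκ, mul_div_cancel_left₀ _ hκ0, Complex.norm_exp_ofReal_mul_I, Complex.ofReal_one, div_one,
      Circle.coe_exp]
  let p : Path (γ 0) (γ 0) :=
    { toFun := fun t => γ (2 * Real.pi * t)
      continuous_toFun := hγ.comp (by fun_prop)
      source' := by simp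
      target' := by simp [hper] }
  have hp : Path.Homotopic p (Path.refl (γ 0)) := SimplyConnectedSpace.paths_homotopic p _
  let Fm : C(C, Circle) := ⟨F, hF⟩
  have hp' : ((Fm.comp p.toContinuousMap).HomotopicRel
      (Fm.comp (Path.refl (γ 0)).toContinuousMap) {0, 1}) :=
    ContinuousMap.HomotopicRel.comp_continuousMap hp Fm
  have cov := Circle.isCoveringMap_exp
  have e0 : (Fm.comp p.toContinuousMap) 0 = Circle.exp 0 := by
    change F (γ (2 * Real.pi * ((0 : I) : ℝ))) = _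
    rw [hFγ]; simp
  have e1 : (Fm.comp (Path.refl (γ 0)).toContinuousMap) 0 = Circle.exp 0 := by
    change F (γ 0) = _
    rw [hFγ]
  have := cov.liftPath_apply_one_eq_of_homotopicRel hp' 0 e0 e1
  have l0 : (⟨fun t : I => 2 * Real.pi * (t : ℝ), by fun_prop⟩ : C(I, ℝ))
      = cov.liftPath (Fm.comp p.toContinuousMap) 0 e0 := by
    rw [cov.eq_liftPath_iff']
    refine ⟨?_, by simp⟩
    funext t
    change Circle.exp (2 * Real.pi * (t : ℝ)) = F (γ (2 * Real.pi * (t : ℝ)))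
    rw [hFγ]
  have l1 : (⟨fun _ : I => (0 : ℝ), by fun_prop⟩ : C(I, ℝ))
      = cov.liftPath (Fm.comp (Path.refl (γ 0)).toContinuousMap) 0 e1 := by
    rw [cov.eq_liftPath_iff']
    refine ⟨?_, by simp⟩
    funext t
    change Circle.exp 0 = F (γ 0)
    rw [hFγ]
  rw [← l0, ← l1] at this
  have h2 : 2 * Real.pi * ((1 : I) : ℝ) = 0 := this
  have := Real.pi_pos
  simp at h2



/-! ### The side lengths and the loop of polygons -/

/-- The side lengths of the counterexample. -/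
def L7 : Fin 7 → ℝ := ![24, 3, 4, 3, 24, 145, 145]

/-- The sides, as vectors, of the loop of polygons; `c, s` are a cosine and a sine. -/
noncomputable def ev (c s : ℝ) : Fin 7 → E3 :=
  ![!₂[16, -8, 16], !₂[-2, -2, -1], !₂[0, 4, 0], !₂[2, -2, -1], !₂[-16, -8, 16],
    !₂[144 * c, 8 + 2160 / 17 * s, -15 + 1152 / 17 * s],
    !₂[-(144 * c), 8 - 2160 / 17 * s, -15 - 1152 / 17 * s]]

lemma L7_pos (i : Fin 7) : 0 < L7 i := by
  fin_cases i <;> simp [L7]

lemma norm_eq_of_sq {a : E3} {l : ℝ} (hl : 0 ≤ l)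
    (h : a 0 * a 0 + a 1 * a 1 + a 2 * a 2 = l ^ 2) : ‖a‖ = l := by
  rw [← norm_sq_E3] at h
  exact (pow_left_inj₀ (norm_nonneg a) hl two_ne_zero).mp h

lemma norm_ev {c s : ℝ} (h : c ^ 2 + s ^ 2 = 1) (i : Fin 7) : ‖ev c s i‖ = L7 i := by
  refine norm_eq_of_sq (L7_pos i).le ?_
  fin_cases i
  · simp [ev, L7]; norm_num
  · simp [ev, L7]; norm_num
  · simp [ev, L7]; norm_num
  · simp [ev, L7]; norm_num
  · simp [ev, L7]; norm_num
  · simp [ev, L7]; linear_combination 20736 * h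
  · simp [ev, L7]; linear_combination 20736 * h

/-- The polygon with parameters `c, s`. -/
noncomputable def tup (c s : ℝ) (h : c ^ 2 + s ^ 2 = 1) : ClosedTuple L7 :=
  ⟨fun i => (L7 i)⁻¹ • ev c s i, by
    constructor
    · intro i
      rw [norm_smul, norm_ev h, norm_inv, Real.norm_of_nonneg (L7_pos i).le,
        inv_mul_cancel₀ (L7_pos i).ne']
    · have : ∀ i, L7 i • (L7 i)⁻¹ • ev c s i = ev c s i := fun i => by
        rw [smul_smul, mul_inv_cancel₀ (L7_pos i).ne', one_smul]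
      simp only [this]
      ext j
      rw [Fin.sum_univ_seven]
      fin_cases j <;> simp [ev] <;> ring⟩

/-- The vertices of the loop of polygons. -/
noncomputable def Q (c s : ℝ) : ℕ → E3
  | 0 => 0
  | 1 => !₂[16, -8, 16]
  | 2 => !₂[14, -10, 15]
  | 3 => !₂[14, -6, 15]
  | 4 => !₂[16, -8, 14]
  | 5 => !₂[0, -16, 30]
  | 6 => !₂[144 * c, -8 + 2160 / 17 * s, 15 + 1152 / 17 * s]
  | _ => 0

lemma vertex_tup {c s : ℝ} (h : c ^ 2 + s ^ 2 = 1) (k : ℕ) (hk : k ≤ 7) :
    vertex L7 (tup c s h).1 k = Q c s k := by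
  have st : ∀ i : Fin 7, vertex L7 (tup c s h).1 (i + 1)
      = vertex L7 (tup c s h).1 i + ev c s i := by
    intro i
    rw [vertex_succ]
    congr 1
    change L7 i • (L7 i)⁻¹ • ev c s i = ev c s i
    rw [smul_smul, mul_inv_cancel₀ (L7_pos i).ne', one_smul]
  have v0 : vertex L7 (tup c s h).1 0 = Q c s 0 := vertex_zero _ _
  have v1 : vertex L7 (tup c s h).1 1 = Q c s 1 := by
    have := st 0
    rw [show ((0 : Fin 7) : ℕ) = 0 from rfl, v0] at this
    rw [this]
    ext j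
    fin_cases j <;> simp [ev, Q]
  have v2 : vertex L7 (tup c s h).1 2 = Q c s 2 := by
    have := st 1
    rw [show ((1 : Fin 7) : ℕ) = 1 from rfl, v1] at this
    rw [this]
    ext j
    fin_cases j <;> simp [ev, Q] <;> norm_num
  have v3 : vertex L7 (tup c s h).1 3 = Q c s 3 := by
    have := st 2
    rw [show ((2 : Fin 7) : ℕ) = 2 from rfl, v2] at this
    rw [this]
    ext j
    fin_cases j <;> simp [ev, Q] <;> norm_num
  have v4 : vertex L7 (tup c s h).1 4 = Q c s 4 := by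
    have := st 3
    rw [show ((3 : Fin 7) : ℕ) = 3 from rfl, v3] at this
    rw [this]
    ext j
    fin_cases j <;> simp [ev, Q] <;> norm_num
  have v5 : vertex L7 (tup c s h).1 5 = Q c s 5 := by
    have := st 4
    rw [show ((4 : Fin 7) : ℕ) = 4 from rfl, v4] at this
    rw [this]
    ext j
    fin_cases j <;> simp [ev, Q] <;> norm_num
  have v6 : vertex L7 (tup c s h).1 6 = Q c s 6 := by
    have := st 5
    rw [show ((5 : Fin 7) : ℕ) = 5 from rfl, v5] at this
    rw [this]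
    ext j
    fin_cases j <;> simp [ev, Q] <;> ring
  have v7 : vertex L7 (tup c s h).1 7 = Q c s 7 := vertex_last _ _ (tup c s h).2.2
  interval_cases k
  · exact v0
  · exact v1
  · exact v2
  · exact v3
  · exact v4
  · exact v5
  · exact v6
  · exact v7

/-- An affine function on space. -/
def aff (a b c d : ℝ) (x : E3) : ℝ := a * x 0 + b * x 1 + c * x 2 + d

lemma aff_seg (a b c d : ℝ) {p q x : E3} (hx : x ∈ segment ℝ p q) :
    ∃ α β : ℝ, 0 ≤ α ∧ 0 ≤ β ∧ α + β = 1 ∧ α • p + β • q = x ∧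
      aff a b c d x = α * aff a b c d p + β * aff a b c d q := by
  obtain ⟨α, β, hα, hβ, hab, rfl⟩ := hx
  refine ⟨α, β, hα, hβ, hab, rfl, ?_⟩
  simp only [aff, PiLp.add_apply, PiLp.smul_apply, smul_eq_mul]
  linear_combination (-d) * hab

lemma sep (a b c d : ℝ) {p q p' q' x : E3} (hx : x ∈ segment ℝ p q)
    (hx' : x ∈ segment ℝ p' q') (h1 : aff a b c d p ≤ 0) (h2 : aff a b c d q ≤ 0)
    (h3 : 0 < aff a b c d p') (h4 : 0 < aff a b c d q') : False := by
  obtain ⟨α, β, hα, hβ, hab, -, e⟩ := aff_seg a b c d hx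
  obtain ⟨α', β', hα', hβ', hab', -, e'⟩ := aff_seg a b c d hx'
  have n1 : aff a b c d x ≤ 0 := by rw [e]; nlinarith
  have n2 : 0 < aff a b c d x := by
    rw [e']
    rcases hα'.eq_or_lt with h | h
    · rw [← h] at hab' ⊢
      have : β' = 1 := by linarith
      rw [this]; linarith
    · have := mul_pos h h3
      have := mul_nonneg hβ' h4.le
      linarith
  linarith

lemma sep_adj (a b c d : ℝ) {p t q x : E3} (hx : x ∈ segment ℝ p t)
    (hx' : x ∈ segment ℝ t q) (h1 : aff a b c d p ≤ 0) (h2 : aff a b c d t = 0)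
    (h3 : 0 < aff a b c d q) : x = t := by
  obtain ⟨α, β, hα, hβ, hab, -, e⟩ := aff_seg a b c d hx
  obtain ⟨α', β', hα', hβ', hab', hx'', e'⟩ := aff_seg a b c d hx'
  have n1 : aff a b c d x ≤ 0 := by rw [e, h2]; nlinarith
  rw [e', h2, mul_zero, zero_add] at n1
  have hb : β' = 0 := by
    rcases hβ'.eq_or_lt with h | h
    · exact h.symm
    · have := mul_pos h h3
      linarith
  have ha : α' = 1 := by linarith
  rw [← hx'', hb, ha, one_smul, zero_smul, add_zero]

lemma not_self_of {n : ℕ} {ℓ : Fin n → ℝ} {u : Fin n → E3}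
    (h : ∀ i j : Fin n, i < j → ∀ x, x ∈ side ℓ u i → x ∈ side ℓ u j →
      ((j : ℕ) = (i + 1) % n ∧ x = vertex ℓ u (i + 1)) ∨
      ((i : ℕ) = (j + 1) % n ∧ x = vertex ℓ u (j + 1))) : ¬ SelfIntersecting ℓ u := by
  rintro ⟨i, j, hij, x, hi, hj, h1, h2⟩
  rcases lt_or_gt_of_ne hij with hlt | hlt
  · rcases h i j hlt x hi hj with e | e
    · exact h1 e
    · exact h2 e
  · rcases h j i hlt x hj hi with e | e
    · exact h2 e
    · exact h1 e

lemma tup_embedded {c s : ℝ} (h : c ^ 2 + s ^ 2 = 1) :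
    ¬ SelfIntersecting L7 (tup c s h).1 := by
  have c1 : c ≤ 1 := by nlinarith
  have c2 : -1 ≤ c := by nlinarith
  have s1 : s ≤ 1 := by nlinarith
  have s2 : -1 ≤ s := by nlinarith
  have S : ∀ i : Fin 7, side L7 (tup c s h).1 i = segment ℝ (Q c s i) (Q c s (i + 1)) := by
    intro i
    rw [side, vertex_tup h _ (by omega), vertex_tup h _ (by omega)]
  have VV : ∀ i : Fin 7, vertex L7 (tup c s h).1 (i + 1) = Q c s (i + 1) :=
    fun i => vertex_tup h _ (by omega)
  apply not_self_of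
  intro i j hij x hi hj
  rw [S] at hi hj
  rw [VV, VV]
  -- the values of the two moving functionals at the vertices
  have p0 : 0 < aff (-289 * c) (1152 - 255 * s) (-2160 - 136 * s) 83232 (Q c s 0) := by
    simp [aff, Q]
  have p1 : 0 < aff (-289 * c) (1152 - 255 * s) (-2160 - 136 * s) 83232 (Q c s 1) := by
    simp [aff, Q]; linarith
  have p2 : 0 < aff (-289 * c) (1152 - 255 * s) (-2160 - 136 * s) 83232 (Q c s 2) := by
    simp [aff, Q]; linarith
  have p3 : 0 < aff (-289 * c) (1152 - 255 * s) (-2160 - 136 * s) 83232 (Q c s 3) := by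
    simp [aff, Q]; linarith
  have p4 : 0 < aff (-289 * c) (1152 - 255 * s) (-2160 - 136 * s) 83232 (Q c s 4) := by
    simp [aff, Q]; linarith
  have p5 : aff (-289 * c) (1152 - 255 * s) (-2160 - 136 * s) 83232 (Q c s 5) = 0 := by
    simp [aff, Q]; ring
  have p6 : aff (-289 * c) (1152 - 255 * s) (-2160 - 136 * s) 83232 (Q c s 6) = 0 := by
    simp [aff, Q]; linear_combination (-41616) * h
  have q0 : aff (-289 * c) (-1152 - 255 * s) (2160 - 136 * s) 0 (Q c s 0) = 0 := by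
    simp [aff, Q]
  have q1 : 0 < aff (-289 * c) (-1152 - 255 * s) (2160 - 136 * s) 0 (Q c s 1) := by
    simp [aff, Q]; linarith
  have q2 : 0 < aff (-289 * c) (-1152 - 255 * s) (2160 - 136 * s) 0 (Q c s 2) := by
    simp [aff, Q]; linarith
  have q3 : 0 < aff (-289 * c) (-1152 - 255 * s) (2160 - 136 * s) 0 (Q c s 3) := by
    simp [aff, Q]; linarith
  have q4 : 0 < aff (-289 * c) (-1152 - 255 * s) (2160 - 136 * s) 0 (Q c s 4) := by
    simp [aff, Q]; linarith
  have q5 : 0 < aff (-289 * c) (-1152 - 255 * s) (2160 - 136 * s) 0 (Q c s 5) := by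
    simp [aff, Q]; linarith
  have q6 : aff (-289 * c) (-1152 - 255 * s) (2160 - 136 * s) 0 (Q c s 6) = 0 := by
    simp [aff, Q]; linear_combination (-41616) * h
  have q7 : aff (-289 * c) (-1152 - 255 * s) (2160 - 136 * s) 0 (Q c s 7) = 0 := by
    simp [aff, Q]
  fin_cases i <;> fin_cases j <;> first
    | (exfalso; revert hij; decide)
    | skip
  -- 0 1
  · left
    refine ⟨by decide, ?_⟩
    exact sep_adj 0 (-1) 0 (-8) hi hj (by simp [aff, Q]) (by simp [aff, Q])
      (by simp [aff, Q]; norm_num)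
  -- 0 2
  · exfalso
    exact sep (-1) 0 1 0 hi hj (by simp [aff, Q]) (by simp [aff, Q]) (by simp [aff, Q]; norm_num)
      (by simp [aff, Q]; norm_num)
  -- 0 3
  · exfalso
    exact sep 2 2 (-1) 0 hi hj (by simp [aff, Q]) (by simp [aff, Q]; norm_num)
      (by simp [aff, Q]; norm_num) (by simp [aff, Q]; norm_num)
  -- 0 4
  · exfalso
    exact sep 0 (-2) (-1) 0 hi hj (by simp [aff, Q]) (by simp [aff, Q]; norm_num)
      (by simp [aff, Q]; norm_num) (by simp [aff, Q]; norm_num)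
  -- 0 5
  · exfalso
    exact sep _ _ _ _ hj hi p5.le p6.le p0 p1
  -- 0 6
  · right
    refine ⟨by decide, ?_⟩
    exact sep_adj _ _ _ _ hj hi q6.le q7 q1
  -- 1 2
  · left
    refine ⟨by decide, ?_⟩
    exact sep_adj (-1) 1 0 24 hi hj (by simp [aff, Q]; norm_num) (by simp [aff, Q]; norm_num)
      (by simp [aff, Q]; norm_num)
  -- 1 3
  · exfalso
    exact sep 0 1 (-1) 24 hi hj (by simp [aff, Q]; norm_num) (by simp [aff, Q]; norm_num)
      (by simp [aff, Q]; norm_num) (by simp [aff, Q]; norm_num)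
  -- 1 4
  · exfalso
    exact sep (-2) 2 (-1) 63 hi hj (by simp [aff, Q]; norm_num) (by simp [aff, Q]; norm_num)
      (by simp [aff, Q]; norm_num) (by simp [aff, Q]; norm_num)
  -- 1 5
  · exfalso
    exact sep _ _ _ _ hj hi p5.le p6.le p1 p2
  -- 1 6
  · exfalso
    exact sep _ _ _ _ hj hi q6.le q7.le q1 q2
  -- 2 3
  · left
    refine ⟨by decide, ?_⟩
    exact sep_adj 0 0 (-1) 15 hi hj (by simp [aff, Q]) (by simp [aff, Q])
      (by simp [aff, Q]; norm_num)
  -- 2 4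
  · exfalso
    exact sep 1 0 1 (-29) hi hj (by simp [aff, Q]; norm_num) (by simp [aff, Q]; norm_num)
      (by simp [aff, Q]; norm_num) (by simp [aff, Q]; norm_num)
  -- 2 5
  · exfalso
    exact sep _ _ _ _ hj hi p5.le p6.le p2 p3
  -- 2 6
  · exfalso
    exact sep _ _ _ _ hj hi q6.le q7.le q2 q3
  -- 3 4
  · left
    refine ⟨by decide, ?_⟩
    exact sep_adj 0 (-1) 0 (-8) hi hj (by simp [aff, Q]; norm_num) (by simp [aff, Q])
      (by simp [aff, Q]; norm_num)
  -- 3 5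
  · exfalso
    exact sep _ _ _ _ hj hi p5.le p6.le p3 p4
  -- 3 6
  · exfalso
    exact sep _ _ _ _ hj hi q6.le q7.le q3 q4
  -- 4 5
  · left
    refine ⟨by decide, ?_⟩
    rw [segment_symm] at hi hj
    exact sep_adj _ _ _ _ hj hi p6.le p5 p4
  -- 4 6
  · exfalso
    exact sep _ _ _ _ hj hi q6.le q7.le q4 q5
  -- 5 6
  · left
    refine ⟨by decide, ?_⟩
    rw [segment_symm] at hi hj
    exact sep_adj _ _ _ _ hj hi q7.le q6 q5


/-! ### Facts about all polygons with these side lengths -/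

lemma norm_step (u : ClosedTuple L7) (i : Fin 7) :
    ‖vertex L7 u.1 (i + 1) - vertex L7 u.1 i‖ = L7 i := by
  rw [vertex_succ, add_sub_cancel_left, norm_smul, u.2.1 i, mul_one,
    Real.norm_of_nonneg (L7_pos i).le]

lemma n01 (u : ClosedTuple L7) : ‖vertex L7 u.1 0 - vertex L7 u.1 1‖ = 24 := by
  rw [norm_sub_rev]; exact norm_step u 0
lemma n12 (u : ClosedTuple L7) : ‖vertex L7 u.1 2 - vertex L7 u.1 1‖ = 3 := norm_step u 1
lemma n23 (u : ClosedTuple L7) : ‖vertex L7 u.1 3 - vertex L7 u.1 2‖ = 4 := norm_step u 2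
lemma n34 (u : ClosedTuple L7) : ‖vertex L7 u.1 4 - vertex L7 u.1 3‖ = 3 := norm_step u 3
lemma n45 (u : ClosedTuple L7) : ‖vertex L7 u.1 5 - vertex L7 u.1 4‖ = 24 := norm_step u 4
lemma n56 (u : ClosedTuple L7) : ‖vertex L7 u.1 6 - vertex L7 u.1 5‖ = 145 := norm_step u 5
lemma n60 (u : ClosedTuple L7) : ‖vertex L7 u.1 6 - vertex L7 u.1 0‖ = 145 := by
  have h7 : vertex L7 u.1 0 = vertex L7 u.1 7 := by
    rw [vertex_zero]; exact (vertex_last _ _ u.2.2).symm
  rw [h7, norm_sub_rev]; exact norm_step u 6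

lemma Kpos_of_Kcl' (u : ClosedTuple L7) (hu : ¬ SelfIntersecting L7 u.1) {z : Fin 8 → ℝ}
    (hz : z ∈ Set.Icc (0 : Fin 8 → ℝ) 1) (hK : Kcl (vertex L7 u.1) z) :
    Kpos (vertex L7 u.1) := by
  have far : ∀ i j : Fin 7, i ≠ j → (j : ℕ) ≠ (i + 1) % 7 → (i : ℕ) ≠ (j + 1) % 7 →
      ∀ x, x ∈ segment ℝ (vertex L7 u.1 i) (vertex L7 u.1 (i + 1)) →
        x ∈ segment ℝ (vertex L7 u.1 j) (vertex L7 u.1 (j + 1)) → False :=
    fun i j hij h1 h2 x hx hx' =>
      hu ⟨i, j, hij, x, hx, hx', fun e => h1 e.1, fun e => h2 e.1⟩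
  have ne23 : vertex L7 u.1 2 ≠ vertex L7 u.1 3 := by
    intro e
    have := n23 u
    rw [e, sub_self, norm_zero] at this
    norm_num at this
  refine Kpos_of_Kcl hz (far 0 2 (by decide) (by decide) (by decide))
    (far 0 3 (by decide) (by decide) (by decide)) (far 4 1 (by decide) (by decide) (by decide))
    (far 4 2 (by decide) (by decide) (by decide)) (far 0 4 (by decide) (by decide) (by decide))
    ?_ ?_ ne23 hK
  · intro h3
    refine hu ⟨1, 2, by decide, vertex L7 u.1 3, h3, right_mem_segment ℝ _ _, ?_, ?_⟩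
    · rintro ⟨-, e⟩
      exact ne23 e.symm
    · rintro ⟨e, -⟩
      exact absurd e (by decide)
  · intro h2
    refine hu ⟨2, 3, by decide, vertex L7 u.1 2, left_mem_segment ℝ _ _, h2, ?_, ?_⟩
    · rintro ⟨-, e⟩
      exact ne23 e
    · rintro ⟨e, -⟩
      exact absurd e (by decide)

lemma isOpen_Kpos : IsOpen {u : ClosedTuple L7 | Kpos (vertex L7 u.1)} := by
  have cv := continuous_vertex L7
  have cd : ∀ a b c d e f : ℕ, Continuous fun u : ClosedTuple L7 =>
      D (vertex L7 u.1 a - vertex L7 u.1 b) (vertex L7 u.1 c - vertex L7 u.1 d)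
        (vertex L7 u.1 e - vertex L7 u.1 f) := fun a b c d e f =>
    continuous_D ((cv a).sub (cv b)) ((cv c).sub (cv d)) ((cv e).sub (cv f))
  have hV : Continuous fun u : ClosedTuple L7 => V (vertex L7 u.1) := cd _ _ _ _ _ _
  have hA2 : Continuous fun u : ClosedTuple L7 => A2 (vertex L7 u.1) := cd _ _ _ _ _ _
  have hA3 : Continuous fun u : ClosedTuple L7 => A3 (vertex L7 u.1) := cd _ _ _ _ _ _
  have hA4 : Continuous fun u : ClosedTuple L7 => A4 (vertex L7 u.1) := cd _ _ _ _ _ _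
  have hW : Continuous fun u : ClosedTuple L7 => W (vertex L7 u.1) := cd _ _ _ _ _ _
  have hB1 : Continuous fun u : ClosedTuple L7 => B1 (vertex L7 u.1) := cd _ _ _ _ _ _
  have hB2 : Continuous fun u : ClosedTuple L7 => B2 (vertex L7 u.1) := cd _ _ _ _ _ _
  have hB3 : Continuous fun u : ClosedTuple L7 => B3 (vertex L7 u.1) := cd _ _ _ _ _ _
  unfold Kpos
  refine IsOpen.and (IsOpen.and ?_ (IsOpen.and ?_ ?_))
    (IsOpen.and (IsOpen.and ?_ (IsOpen.and ?_ ?_)) ?_)
  · exact isOpen_lt continuous_const (hA2.mul hV)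
  · exact isOpen_lt continuous_const (hA3.mul hV)
  · exact isOpen_lt continuous_const (hA4.mul hV)
  · exact isOpen_lt continuous_const (hB1.mul hW)
  · exact isOpen_lt continuous_const (hB2.mul hW)
  · exact isOpen_lt continuous_const (hB3.mul hW)
  · exact isOpen_lt continuous_const (((hA3.mul hB2).sub (hA2.mul hB3)).mul (hV.mul hW))

lemma isClosed_Kcl : IsClosed {u : ClosedTuple L7 |
    ∃ z ∈ Set.Icc (0 : Fin 8 → ℝ) 1, Kcl (vertex L7 u.1) z} := by
  have cv := continuous_vertex L7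
  let Z := Set.Icc (0 : Fin 8 → ℝ) 1
  have hS : IsClosed {p : Z × ClosedTuple L7 | Kcl (vertex L7 p.2.1) p.1.1} := by
    have cz : ∀ i : Fin 8, Continuous fun p : Z × ClosedTuple L7 => p.1.1 i := fun i =>
      (continuous_apply i).comp (continuous_subtype_val.comp continuous_fst)
    have cp : ∀ k : ℕ, Continuous fun p : Z × ClosedTuple L7 => vertex L7 p.2.1 k := fun k =>
      (cv k).comp continuous_snd
    unfold Kcl
    refine IsClosed.and ?_ (IsClosed.and ?_ (IsClosed.and ?_ (IsClosed.and ?_ ?_)))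
    · exact isClosed_eq (((cz 0).add (cz 1)).add (cz 2)) continuous_const
    · exact isClosed_eq (((cz 3).add (cz 4)).add (cz 5)) continuous_const
    · exact isClosed_eq ((cp 1).add ((cz 6).smul ((cp 0).sub (cp 1))))
        ((((cz 0).smul (cp 2)).add ((cz 1).smul (cp 3))).add ((cz 2).smul (cp 4)))
    · exact isClosed_eq ((cp 4).add ((cz 7).smul ((cp 5).sub (cp 4))))
        ((((cz 3).smul (cp 1)).add ((cz 4).smul (cp 2))).add ((cz 5).smul (cp 3)))
    · exact isClosed_le ((cz 0).mul (cz 5)) ((cz 1).mul (cz 4))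
  have := isClosedMap_snd_of_compactSpace _ hS
  convert this using 1
  ext u
  constructor
  · rintro ⟨z, hz, hK⟩
    exact ⟨(⟨z, hz⟩, u), hK, rfl⟩
  · rintro ⟨⟨z, u'⟩, hK, rfl⟩
    exact ⟨z.1, z.2, hK⟩

lemma Kcl_map {P Q : ℕ → E3} (g : E3 ≃ₗᵢ[ℝ] E3) (h : ∀ k, Q k = g (P k)) {z : Fin 8 → ℝ}
    (hK : Kcl P z) : Kcl Q z := by
  obtain ⟨h1, h2, h3, h4, h5⟩ := hK
  refine ⟨h1, h2, ?_, ?_, h5⟩
  · simp only [h]
    rw [← map_sub, ← map_smul, ← map_add, h3, map_add, map_add, map_smul, map_smul, map_smul]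
  · simp only [h]
    rw [← map_sub, ← map_smul, ← map_add, h4, map_add, map_add, map_smul, map_smul, map_smul]

/-- The open set of knotted configurations in the polygon space. -/
def KM : Set (PolygonSpace L7) :=
  {q | ∀ u : ClosedTuple L7, Quotient.mk (rotSetoid L7) u = q → Kpos (vertex L7 u.1)}

def CM : Set (PolygonSpace L7) :=
  {q | ∀ u : ClosedTuple L7, Quotient.mk (rotSetoid L7) u = q →
    ∃ z ∈ Set.Icc (0 : Fin 8 → ℝ) 1, Kcl (vertex L7 u.1) z}

lemma mk_mem_KM {u : ClosedTuple L7} :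
    Quotient.mk (rotSetoid L7) u ∈ KM ↔ Kpos (vertex L7 u.1) := by
  constructor
  · intro h
    exact h u rfl
  · intro h v hv
    obtain ⟨g, hg, hg'⟩ : (rotSetoid L7).r u v := Quotient.exact hv.symm
    exact (Kpos_map _ _ g hg (fun k => vertex_map L7 u.1 g hg' k)).mpr h

lemma mk_mem_CM {u : ClosedTuple L7} :
    Quotient.mk (rotSetoid L7) u ∈ CM ↔
      ∃ z ∈ Set.Icc (0 : Fin 8 → ℝ) 1, Kcl (vertex L7 u.1) z := by
  constructor
  · intro h
    exact h u rfl
  · rintro ⟨z, hz, hK⟩ v hv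
    obtain ⟨g, hg, hg'⟩ : (rotSetoid L7).r u v := Quotient.exact hv.symm
    exact ⟨z, hz, Kcl_map g (fun k => vertex_map L7 u.1 g hg' k) hK⟩

lemma isOpen_KM : IsOpen KM := by
  have : IsOpen ((Quotient.mk (rotSetoid L7)) ⁻¹' KM) := by
    convert isOpen_Kpos using 1
    ext u
    exact mk_mem_KM
  exact this

lemma isClosed_CM : IsClosed CM := by
  have : IsClosed ((Quotient.mk (rotSetoid L7)) ⁻¹' CM) := by
    convert isClosed_Kcl using 1
    ext u
    exact mk_mem_CM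
  have h2 : IsOpen ((Quotient.mk (rotSetoid L7)) ⁻¹' CMᶜ) := by
    rw [Set.preimage_compl]
    exact this.isOpen_compl
  have h3 : IsOpen CMᶜ := h2
  exact isOpen_compl_iff.mp h3

lemma KM_iff_CM (q : PolygonSpace L7) (hq : q ∈ (X L7)ᶜ) : q ∈ KM ↔ q ∈ CM := by
  induction q using Quotient.inductionOn with
  | h u =>
    rw [mk_mem_KM, mk_mem_CM]
    constructor
    · intro h
      exact Kcl_of_Kpos (n01 u) (n12 u) (n23 u) (n34 u) (n45 u) h
    · rintro ⟨z, hz, hK⟩
      exact Kpos_of_Kcl' u (fun h => hq ((mk_mem_X L7).mpr h)) hz hK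

/-- The complex function on the polygon space. -/
noncomputable def Fq : PolygonSpace L7 → ℂ :=
  Quotient.lift (fun u : ClosedTuple L7 => Fc (vertex L7 u.1)) (by
    rintro u v ⟨g, hg, hg'⟩
    exact (Fc_map _ _ g hg (fun k => vertex_map L7 u.1 g hg' k)).symm)

lemma continuous_Fq : Continuous Fq := by
  have cv := continuous_vertex L7
  refine Continuous.quotient_lift ?_ _
  have e : (fun u : ClosedTuple L7 => Fc (vertex L7 u.1)) = fun u : ClosedTuple L7 =>
      ((‖vertex L7 u.1 5 - vertex L7 u.1 0‖ ^ 2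
        * inner ℝ (vertex L7 u.1 1 - vertex L7 u.1 0) (vertex L7 u.1 6 - vertex L7 u.1 0)
        - inner ℝ (vertex L7 u.1 1 - vertex L7 u.1 0) (vertex L7 u.1 5 - vertex L7 u.1 0)
        * inner ℝ (vertex L7 u.1 6 - vertex L7 u.1 0) (vertex L7 u.1 5 - vertex L7 u.1 0) : ℝ) : ℂ)
      + ((‖vertex L7 u.1 5 - vertex L7 u.1 0‖ * D (vertex L7 u.1 5 - vertex L7 u.1 0)
        (vertex L7 u.1 1 - vertex L7 u.1 0) (vertex L7 u.1 6 - vertex L7 u.1 0) : ℝ) : ℂ)
        * Complex.I := by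
    funext u
    rw [Fc]
    exact Complex.mk_eq_add_mul_I _ _
  rw [e]
  have c5 := (cv 5).sub (cv 0)
  have c1 := (cv 1).sub (cv 0)
  have c6 := (cv 6).sub (cv 0)
  refine Continuous.add (Complex.continuous_ofReal.comp ?_)
    ((Complex.continuous_ofReal.comp ?_).mul continuous_const)
  · exact ((c5.norm.pow 2).mul (c1.inner c6)).sub ((c1.inner c5).mul (c6.inner c5))
  · exact c5.norm.mul (continuous_D c5 c1 c6)

lemma Fq_ne_zero {q : PolygonSpace L7} (hq : q ∈ KM) : Fq q ≠ 0 := by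
  induction q using Quotient.inductionOn with
  | h u =>
    exact Fc_ne_zero (n01 u) (n12 u) (n23 u) (n34 u) (n45 u) (n56 u) (n60 u) (mk_mem_KM.mp hq)

/-! ### The loop -/

lemma Kpos_Q {P : ℕ → E3} {c s : ℝ} (h : ∀ k ≤ 7, P k = Q c s k) : Kpos P := by
  unfold Kpos A2 A3 A4 B1 B2 B3 V W
  rw [h 0 (by norm_num), h 1 (by norm_num), h 2 (by norm_num), h 3 (by norm_num),
    h 4 (by norm_num), h 5 (by norm_num)]
  simp [D, Q]
  norm_num

lemma Fc_Q {P : ℕ → E3} {c s : ℝ} (h : ∀ k ≤ 7, P k = Q c s k) :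
    Fc P = (⟨2663424, -78336⟩ : ℂ) * (c + s * Complex.I) := by
  have hn : ‖P 5 - P 0‖ = 34 := by
    apply norm_eq_of_sq (by norm_num)
    rw [h 0 (by norm_num), h 5 (by norm_num)]
    simp [Q]
    norm_num
  rw [Fc, hn]
  simp only [inner_E3, D]
  rw [h 0 (by norm_num), h 1 (by norm_num), h 5 (by norm_num), h 6 (by norm_num)]
  apply Complex.ext
  · simp [Q]
    ring
  · simp [Q]
    ring

/-- The loop in the space of closed tuples. -/
noncomputable def loopT (θ : ℝ) : ClosedTuple L7 :=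
  tup (Real.cos θ) (Real.sin θ) (Real.cos_sq_add_sin_sq θ)

lemma continuous_loopT : Continuous loopT := by
  have h0 : Continuous fun θ : ℝ => fun i : Fin 7 =>
      (L7 i)⁻¹ • ev (Real.cos θ) (Real.sin θ) i := by
    refine continuous_pi fun i => ?_
    have h1 : Continuous fun θ : ℝ => WithLp.ofLp (ev (Real.cos θ) (Real.sin θ) i) := by
      refine continuous_pi fun j => ?_
      fin_cases i <;> fin_cases j <;> simp [ev] <;> fun_prop
    have h2 : Continuous fun θ : ℝ => ev (Real.cos θ) (Real.sin θ) i :=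
      (PiLp.continuous_toLp 2 (fun _ : Fin 3 => ℝ)).comp h1
    exact h2.const_smul ((L7 i)⁻¹)
  exact continuous_induced_rng.mpr h0

lemma loop_notMem_X (θ : ℝ) : Quotient.mk (rotSetoid L7) (loopT θ) ∈ (X L7)ᶜ := by
  intro h
  exact tup_embedded _ ((mk_mem_X L7).mp h)

lemma loop_mem_KM (θ : ℝ) : Quotient.mk (rotSetoid L7) (loopT θ) ∈ KM :=
  mk_mem_KM.mpr (Kpos_Q fun k hk => vertex_tup _ k hk)

lemma Fq_loop (θ : ℝ) : Fq (Quotient.mk (rotSetoid L7) (loopT θ))
    = (⟨2663424, -78336⟩ : ℂ) * Complex.exp (θ * Complex.I) := by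
  change Fc (vertex L7 (loopT θ).1) = _
  rw [Fc_Q (P := vertex L7 (loopT θ).1) (c := Real.cos θ) (s := Real.sin θ)
    (fun k hk => vertex_tup _ k hk), Complex.exp_mul_I]
  push_cast
  ring

/-- The loop in the complement of `X`. -/
noncomputable def loopX (θ : ℝ) : ↥(X L7)ᶜ :=
  ⟨Quotient.mk (rotSetoid L7) (loopT θ), loop_notMem_X θ⟩

lemma continuous_loopX : Continuous loopX :=
  Continuous.subtype_mk (continuous_quotient_mk'.comp continuous_loopT) _

lemma not_simply : ¬ SimplyConnectedSpace (connectedComponent (loopX 0)) := by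
  intro hsc
  have hclopen : IsClopen {q : ↥(X L7)ᶜ | q.1 ∈ KM} := by
    constructor
    · have : {q : ↥(X L7)ᶜ | q.1 ∈ KM} = {q : ↥(X L7)ᶜ | q.1 ∈ CM} := by
        ext q
        exact KM_iff_CM q.1 q.2
      rw [this]
      exact isClosed_CM.preimage continuous_subtype_val
    · exact isOpen_KM.preimage continuous_subtype_val
  have hsub : connectedComponent (loopX 0) ⊆ {q : ↥(X L7)ᶜ | q.1 ∈ KM} :=
    hclopen.connectedComponent_subset (loop_mem_KM 0)
  have hmem : ∀ θ, loopX θ ∈ connectedComponent (loopX 0) := by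
    intro θ
    have hpre : IsPreconnected (Set.range loopX) := isPreconnected_range continuous_loopX
    exact hpre.subset_connectedComponent (Set.mem_range_self 0) (Set.mem_range_self θ)
  refine no_loop (C := connectedComponent (loopX 0)) (fun c => Fq c.1.1)
    (continuous_Fq.comp (continuous_subtype_val.comp continuous_subtype_val))
    (fun c => Fq_ne_zero (hsub c.2)) (fun θ => ⟨loopX θ, hmem θ⟩)
    (Continuous.subtype_mk continuous_loopX _) ?_ ⟨2663424, -78336⟩ ?_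
  · apply Subtype.ext
    apply Subtype.ext
    change Quotient.mk (rotSetoid L7) (loopT (2 * Real.pi)) = Quotient.mk (rotSetoid L7) (loopT 0)
    congr 1
    unfold loopT
    congr 1 <;> simp
  · intro θ
    exact Fq_loop θ

/-- There are side lengths `ℓ` (seven sides, no collinear closed polygon) and a connected
component of `M_ℓ ∖ X` that is not contractible. -/
theorem result : ∃ (n : ℕ) (ℓ : Fin n → ℝ), 3 ≤ n ∧ (∀ i, 0 < ℓ i) ∧
    (∀ ε : Fin n → ℝ, (∀ i, ε i = 1 ∨ ε i = -1) → ∑ i, ε i * ℓ i ≠ 0) ∧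
    ∃ q : ↥(X ℓ)ᶜ, ¬ ContractibleSpace (connectedComponent q) := by
  refine ⟨7, L7, by norm_num, L7_pos, ?_, loopX 0, ?_⟩
  · intro ε hε
    rw [Fin.sum_univ_seven]
    simp only [L7]
    rcases hε 0 with h0 | h0 <;> rcases hε 1 with h1 | h1 <;> rcases hε 2 with h2 | h2 <;>
    rcases hε 3 with h3 | h3 <;> rcases hε 4 with h4 | h4 <;> rcases hε 5 with h5 | h5 <;>
    rcases hε 6 with h6 | h6 <;> rw [h0, h1, h2, h3, h4, h5, h6] <;> simp <;> norm_num
  · intro h
    exact not_simply inferInstance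

end Pool.Agent.Results.MP_e82153_gt.Knotted
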